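import Pool.Agent.Y262.QE.Stm

/-!
# Project QE, part CS: the two solutions of `p'' = - k p`
-/

set_option autoImplicit false

open Set Filter Topology

noncomputable section

namespace Pool.Agent.Y421.QE

open Pool.Agent.Y262.QE

/-- the dominating series -/
def dom (R : ℝ) (n : ℕ) : ℝ := (R ^ 3) ^ n / n.factorial

theorem dom_sum (R : ℝ) : Summable (dom R) := Real.summable_pow_div_factorial (R ^ 3)

theorem bd0 {R k x : ℝ} (hR : 1 ≤ R) (hk : |k| ≤ R) (hx : |x| ≤ R) (n : ℕ) :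
    ‖(-k) ^ n * x ^ (2 * n) / (2 * n).factorial‖ ≤ dom R n := by
  have h0 : 0 ≤ R := by linarith
  rw [Real.norm_eq_abs, abs_div, abs_mul, abs_pow, abs_pow, abs_neg, dom, Nat.abs_cast]
  have h1 : (R ^ 3) ^ n = R ^ n * R ^ (2 * n) := by
    rw [← pow_mul, ← pow_add]; congr 1; ring
  rw [h1]
  have h2 : (n.factorial : ℝ) ≤ ((2 * n).factorial : ℝ) := by
    exact_mod_cast Nat.factorial_le (by omega)
  have h3 : (0 : ℝ) < n.factorial := by exact_mod_cast n.factorial_pos
  gcongr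

theorem bd1 {R k x : ℝ} (hR : 1 ≤ R) (hk : |k| ≤ R) (hx : |x| ≤ R) (n : ℕ) :
    ‖(-k) ^ n * x ^ (2 * n + 1) / (2 * n + 1).factorial‖ ≤ R * dom R n := by
  have h0 : 0 ≤ R := by linarith
  rw [Real.norm_eq_abs, abs_div, abs_mul, abs_pow, abs_pow, abs_neg, dom, Nat.abs_cast,
    ← mul_div_assoc]
  have h1 : R * (R ^ 3) ^ n = R ^ n * R ^ (2 * n + 1) := by
    rw [← pow_mul, ← pow_add, ← pow_succ']; congr 1; ring
  rw [h1]
  have h2 : (n.factorial : ℝ) ≤ ((2 * n + 1).factorial : ℝ) := by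
    exact_mod_cast Nat.factorial_le (by omega)
  have h3 : (0 : ℝ) < n.factorial := by exact_mod_cast n.factorial_pos
  gcongr

theorem sm0 (k x : ℝ) : Summable fun n : ℕ => (-k) ^ n * x ^ (2 * n) / (2 * n).factorial := by
  refine Summable.of_norm_bounded (dom_sum (max 1 (max |k| |x|))) fun n => ?_
  exact bd0 (le_max_left _ _) ((le_max_left _ _).trans (le_max_right _ _))
    ((le_max_right _ _).trans (le_max_right _ _)) n

theorem sm1 (k x : ℝ) :
    Summable fun n : ℕ => (-k) ^ n * x ^ (2 * n + 1) / (2 * n + 1).factorial := by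
  refine Summable.of_norm_bounded ((dom_sum (max 1 (max |k| |x|))).mul_left
    (max 1 (max |k| |x|))) fun n => ?_
  exact bd1 (le_max_left _ _) ((le_max_left _ _).trans (le_max_right _ _))
    ((le_max_right _ _).trans (le_max_right _ _)) n

theorem nbhd (q : ℝ × ℝ) : {p : ℝ × ℝ | |p.1| < max 1 (max |q.1| |q.2|) + 1 ∧
    |p.2| < max 1 (max |q.1| |q.2|) + 1} ∈ 𝓝 q := by
  refine IsOpen.mem_nhds ?_ ?_
  · exact (isOpen_lt (continuous_abs.comp continuous_fst) continuous_const).inter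
      (isOpen_lt (continuous_abs.comp continuous_snd) continuous_const)
  · have h1 : |q.1| ≤ max 1 (max |q.1| |q.2|) := (le_max_left _ _).trans (le_max_right _ _)
    have h2 : |q.2| ≤ max 1 (max |q.1| |q.2|) := (le_max_right _ _).trans (le_max_right _ _)
    exact ⟨by linarith, by linarith⟩

theorem cont0 : Continuous fun q : ℝ × ℝ => cs q.1 q.2 := by
  rw [continuous_iff_continuousAt]
  intro q
  have hR : 1 ≤ max 1 (max |q.1| |q.2|) + 1 := by
    have := le_max_left 1 (max |q.1| |q.2|)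
    linarith
  have h := continuousOn_tsum
    (f := fun (n : ℕ) (p : ℝ × ℝ) => (-p.1) ^ n * p.2 ^ (2 * n) / (2 * n).factorial)
    (s := {p : ℝ × ℝ | |p.1| < max 1 (max |q.1| |q.2|) + 1 ∧
      |p.2| < max 1 (max |q.1| |q.2|) + 1})
    (fun n => Continuous.continuousOn (by fun_prop)) (dom_sum (max 1 (max |q.1| |q.2|) + 1))
    (fun n p hp => bd0 hR hp.1.le hp.2.le n)
  exact h.continuousAt (nbhd q)

theorem cont1 : Continuous fun q : ℝ × ℝ => sn q.1 q.2 := by
  rw [continuous_iff_continuousAt]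
  intro q
  have hR : 1 ≤ max 1 (max |q.1| |q.2|) + 1 := by
    have := le_max_left 1 (max |q.1| |q.2|)
    linarith
  have h := continuousOn_tsum
    (f := fun (n : ℕ) (p : ℝ × ℝ) => (-p.1) ^ n * p.2 ^ (2 * n + 1) / (2 * n + 1).factorial)
    (s := {p : ℝ × ℝ | |p.1| < max 1 (max |q.1| |q.2|) + 1 ∧
      |p.2| < max 1 (max |q.1| |q.2|) + 1})
    (fun n => Continuous.continuousOn (by fun_prop))
    ((dom_sum (max 1 (max |q.1| |q.2|) + 1)).mul_left _)
    (fun n p hp => bd1 hR hp.1.le hp.2.le n)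
  exact h.continuousAt (nbhd q)

theorem hd (c : ℝ) (n : ℕ) (x : ℝ) :
    HasDerivAt (fun x : ℝ => c * x ^ (n + 1) / (n + 1).factorial)
      (c * x ^ n / n.factorial) x := by
  have h1 := ((hasDerivAt_pow (n + 1) x).const_mul c).div_const ((n + 1).factorial : ℝ)
  refine h1.congr_deriv ?_
  have h3 : (n.factorial : ℝ) ≠ 0 := by exact_mod_cast n.factorial_ne_zero
  have h4 : (n : ℝ) + 1 ≠ 0 := by positivity
  rw [Nat.factorial_succ, Nat.add_sub_cancel]
  push_cast
  field_simp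

theorem der1 (k x : ℝ) : HasDerivAt (sn k) (cs k x) x := by
  have hR : 1 ≤ max 1 (max |k| |x|) + 1 := by
    have := le_max_left 1 (max |k| |x|)
    linarith
  have hk : |k| ≤ max 1 (max |k| |x|) + 1 := by
    have := (le_max_left |k| |x|).trans (le_max_right 1 _)
    linarith
  have hx : |x| < max 1 (max |k| |x|) + 1 := by
    have := (le_max_right |k| |x|).trans (le_max_right 1 _)
    linarith
  set R := max 1 (max |k| |x|) + 1 with hRd
  refine hasDerivAt_tsum_of_isPreconnected (dom_sum R) (t := Ioo (-R) R) isOpen_Ioo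
    isPreconnected_Ioo (fun n y _ => hd _ (2 * n) y)
    (fun n y hy => bd0 hR hk (abs_le.mpr ⟨hy.1.le, hy.2.le⟩) n) (abs_lt.mp hx) (sm1 k x)
    (abs_lt.mp hx)

theorem cs_eq (k x : ℝ) : cs k x = 1 + ∑' n : ℕ, (-k) ^ (n + 1) * x ^ (2 * n + 1 + 1) /
    (2 * n + 1 + 1).factorial := by
  rw [cs, (sm0 k x).tsum_eq_zero_add]
  simp
  rfl

theorem der0 (k x : ℝ) : HasDerivAt (cs k) (-k * sn k x) x := by
  have hR : 1 ≤ max 1 (max |k| |x|) + 1 := by
    have := le_max_left 1 (max |k| |x|)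
    linarith
  have hk : |k| ≤ max 1 (max |k| |x|) + 1 := by
    have := (le_max_left |k| |x|).trans (le_max_right 1 _)
    linarith
  have hx : |x| < max 1 (max |k| |x|) + 1 := by
    have := (le_max_right |k| |x|).trans (le_max_right 1 _)
    linarith
  set R := max 1 (max |k| |x|) + 1 with hRd
  have e0 : cs k = fun x => 1 + ∑' n : ℕ, (-k) ^ (n + 1) * x ^ (2 * n + 1 + 1) /
      (2 * n + 1 + 1).factorial := funext (cs_eq k)
  rw [e0]
  have hs : Summable fun n : ℕ => (-k) ^ (n + 1) * x ^ (2 * n + 1 + 1) /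
      (2 * n + 1 + 1).factorial := by
    have := (summable_nat_add_iff 1).mpr (sm0 k x)
    exact this
  have h1 := hasDerivAt_tsum_of_isPreconnected (((dom_sum R).mul_left R).mul_left |k|)
    (t := Ioo (-R) R) isOpen_Ioo isPreconnected_Ioo
    (g := fun (n : ℕ) (y : ℝ) => (-k) ^ (n + 1) * y ^ (2 * n + 1 + 1) / (2 * n + 1 + 1).factorial)
    (g' := fun (n : ℕ) (y : ℝ) => (-k) ^ (n + 1) * y ^ (2 * n + 1) / (2 * n + 1).factorial)
    (fun n y _ => hd _ (2 * n + 1) y)
    (fun n y hy => by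
      have h2 := bd1 hR hk (abs_le.mpr ⟨hy.1.le, hy.2.le⟩) n
      have h3 : (-k) ^ (n + 1) * y ^ (2 * n + 1) / ((2 * n + 1).factorial : ℝ) =
          -k * ((-k) ^ n * y ^ (2 * n + 1) / ((2 * n + 1).factorial : ℝ)) := by ring
      rw [h3, norm_mul, norm_neg, Real.norm_eq_abs k]
      exact mul_le_mul_of_nonneg_left h2 (abs_nonneg k))
    (abs_lt.mp hx) hs (abs_lt.mp hx)
  refine (h1.const_add 1).congr_deriv ?_
  rw [sn, ← tsum_mul_left]
  refine tsum_congr fun n => ?_
  ring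

theorem csn : StCS := by
  refine ⟨cont0, cont1, der0, der1, fun k => ⟨?_, ?_⟩⟩
  · rw [cs_eq]
    simp
  · simp [sn]

end Pool.Agent.Y421.QE
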