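import Pool.Agent.Y262.QE.Stm

/-!
# Project QE, part PAR: Parseval's formula for odd functions
-/

set_option autoImplicit false

open Set Filter Topology MeasureTheory
open scoped Real

noncomputable section

namespace Pool.Agent.Y421.QE

open Pool.Agent.Y262.QE

theorem restr : (volume : Measure ℝ).restrict (Ioo (-π) π) = volume.restrict (Ioc (-π) π) :=
  Measure.restrict_congr_set Ioo_ae_eq_Ioc

/-- Parseval's identity for a real odd function on `(-π, π)` -/
theorem parsO {f : ℝ → ℝ} (hf : MemLp f 2 (volume.restrict (Ioc (-π) π)))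
    (ho : ∀ᵐ y ∂volume.restrict (Ioc (-π) π), f (-y) = - f y) :
    HasSum (fun n : ℤ => (∫ θ in (-π)..π, f θ * Real.sin (n * θ)) ^ 2 / (4 * π ^ 2))
      ((∫ θ in (-π)..π, f θ ^ 2) / (2 * π)) := by
  have hpi := Real.pi_pos
  have hab : (-π : ℝ) < π := by linarith
  have hmem : MemLp (fun x => (f x : ℂ)) 2 (volume.restrict (Ioc (-π) π)) := hf.ofReal
  have hfi : IntegrableOn f (Ioc (-π) π) := hf.integrable (by norm_num)
  have s1 := hasSum_sq_fourierCoeffOn hab hmem
  have hcosI : ∀ n : ℝ, IntervalIntegrable (fun x => f x * Real.cos (n * x)) volume (-π) π := by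
    intro n
    rw [intervalIntegrable_iff_integrableOn_Ioc_of_le hab.le]
    refine Integrable.mul_bdd (c := 1) hfi ?_ ?_
    · exact (by fun_prop : Continuous fun x : ℝ => Real.cos (n * x)).aestronglyMeasurable
    · exact Filter.Eventually.of_forall fun x => by
        rw [Real.norm_eq_abs]; exact Real.abs_cos_le_one _
  have hsinI : ∀ n : ℝ, IntervalIntegrable (fun x => f x * Real.sin (n * x)) volume (-π) π := by
    intro n
    rw [intervalIntegrable_iff_integrableOn_Ioc_of_le hab.le]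
    refine Integrable.mul_bdd (c := 1) hfi ?_ ?_
    · exact (by fun_prop : Continuous fun x : ℝ => Real.sin (n * x)).aestronglyMeasurable
    · exact Filter.Eventually.of_forall fun x => by
        rw [Real.norm_eq_abs]; exact Real.abs_sin_le_one _
  have hcos0 : ∀ n : ℝ, ∫ x in (-π)..π, f x * Real.cos (n * x) = 0 := by
    intro n
    have h1 : ∫ x in (-π)..π, f (-x) * Real.cos (n * (-x)) =
        ∫ x in (-π)..π, f x * Real.cos (n * x) := by
      have := intervalIntegral.integral_comp_neg (a := -π) (b := π)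
        (fun x => f x * Real.cos (n * x))
      rw [neg_neg] at this
      exact this
    have h2 : ∫ x in (-π)..π, f (-x) * Real.cos (n * (-x)) =
        ∫ x in (-π)..π, -(f x * Real.cos (n * x)) := by
      rw [intervalIntegral.integral_of_le hab.le, intervalIntegral.integral_of_le hab.le]
      refine integral_congr_ae ?_
      filter_upwards [ho] with x hx
      rw [hx, mul_neg, Real.cos_neg, neg_mul]
    rw [intervalIntegral.integral_neg] at h2
    linarith
  have hz : ∀ n : ℤ, ‖fourierCoeffOn hab (fun x => (f x : ℂ)) n‖ ^ 2 =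
      (∫ θ in (-π)..π, f θ * Real.sin (n * θ)) ^ 2 / (4 * π ^ 2) := by
    intro n
    rw [fourierCoeffOn_eq_integral]
    have e1 : ∀ x : ℝ, fourier (-n) (x : AddCircle (π - (-π))) • (f x : ℂ) =
        ((f x * Real.cos (n * x) : ℝ) : ℂ) - ((f x * Real.sin (n * x) : ℝ) : ℂ) * Complex.I := by
      intro x
      rw [fourier_coe_apply]
      have e2 : 2 * (π : ℂ) * Complex.I * ((-n : ℤ) : ℂ) * x / ((π - (-π) : ℝ) : ℂ) =
          ((-(n * x) : ℝ) : ℂ) * Complex.I := by
        have : (π : ℂ) ≠ 0 := by exact_mod_cast hpi.ne'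
        push_cast
        field_simp
        ring
      rw [e2, Complex.exp_mul_I, ← Complex.ofReal_cos, ← Complex.ofReal_sin, Real.cos_neg,
        Real.sin_neg, smul_eq_mul]
      push_cast
      ring
    simp only [e1]
    have c1 : IntervalIntegrable (fun x => ((f x * Real.cos (n * x) : ℝ) : ℂ)) volume (-π) π :=
      ⟨(hcosI n).1.ofReal, (hcosI n).2.ofReal⟩
    have c2 : IntervalIntegrable (fun x => ((f x * Real.sin (n * x) : ℝ) : ℂ) * Complex.I)
        volume (-π) π :=
      IntervalIntegrable.mul_const ⟨(hsinI n).1.ofReal, (hsinI n).2.ofReal⟩ _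
    rw [intervalIntegral.integral_sub c1 c2,
      intervalIntegral.integral_mul_const, intervalIntegral.integral_ofReal,
      intervalIntegral.integral_ofReal, hcos0, norm_smul, mul_pow]
    have h5 : ∀ p q : ℝ, ‖(p : ℂ) - (q : ℂ) * Complex.I‖ ^ 2 = p ^ 2 + q ^ 2 := by
      intro p q
      rw [← Complex.normSq_eq_norm_sq, Complex.normSq_apply]
      simp
      ring
    rw [h5]
    rw [Real.norm_eq_abs, abs_of_pos (by
      have : 0 < π - -π := by linarith
      positivity)]
    have : π - -π = 2 * π := by ring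
    rw [this]
    field_simp
    ring
  simp only [hz] at s1
  have h6 : (π - -π)⁻¹ • ∫ x in (-π)..π, ‖(f x : ℂ)‖ ^ 2 = (∫ θ in (-π)..π, f θ ^ 2) / (2 * π) := by
    have h7 : ∀ x : ℝ, ‖(f x : ℂ)‖ ^ 2 = f x ^ 2 := by
      intro x
      rw [Complex.norm_real, Real.norm_eq_abs, sq_abs]
    simp only [h7]
    have : π - -π = 2 * π := by ring
    rw [this, smul_eq_mul]
    field_simp
  rw [h6] at s1
  exact s1

theorem par : StPar := by
  intro f hf ho
  have hpi := Real.pi_pos
  have hab : (-π : ℝ) < π := by linarith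
  rw [restr] at hf ho
  have h1 := parsO hf ho
  have h2 := h1.nat_add_neg
  have h0 : (∫ θ in (-π)..π, f θ * Real.sin (((0 : ℤ) : ℝ) * θ)) ^ 2 / (4 * π ^ 2) = 0 := by
    simp
  rw [h0, add_zero] at h2
  rw [← hasSum_nat_add_iff' 1] at h2
  simp only [Finset.range_one, Finset.sum_singleton, Nat.cast_zero, neg_zero, Int.cast_zero,
    zero_mul, Real.sin_zero, mul_zero, intervalIntegral.integral_zero] at h2
  have h3 := h2.mul_left (2 * π)
  have e1 : 2 * π * ((∫ θ in (-π)..π, f θ ^ 2) / (2 * π) -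
      (0 ^ 2 / (4 * π ^ 2) + 0 ^ 2 / (4 * π ^ 2))) = ∫ y in Ioo (-π) π, (f y) ^ 2 := by
    rw [intervalIntegral.integral_of_le hab.le, restr]
    field_simp
    ring
  rw [e1] at h3
  suffices h4 : (fun m : ℕ => ((Real.sqrt π)⁻¹ * ∫ y in Ioo (-π) π,
      Real.sin ((m + 1) * y) * f y) ^ 2) = fun i : ℕ => 2 * π *
        ((∫ (θ : ℝ) in -π..π, f θ * Real.sin ((((i + 1 : ℕ) : ℤ) : ℝ) * θ)) ^ 2 / (4 * π ^ 2) +
          (∫ (θ : ℝ) in -π..π, f θ * Real.sin (((-((i + 1 : ℕ) : ℤ) : ℤ) : ℝ) * θ)) ^ 2 /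
            (4 * π ^ 2)) by
    rw [h4]
    exact h3
  funext m
  have e2 : ∫ y in Ioo (-π) π, Real.sin ((m + 1) * y) * f y =
      ∫ θ in (-π)..π, f θ * Real.sin ((((m + 1 : ℕ) : ℤ) : ℝ) * θ) := by
    rw [intervalIntegral.integral_of_le hab.le, restr]
    refine integral_congr_ae (Filter.Eventually.of_forall fun x => ?_)
    have e5 : ((((m + 1 : ℕ) : ℤ) : ℝ)) = (m : ℝ) + 1 := by push_cast; rfl
    rw [e5]
    exact mul_comm _ _
  have e3 : ∫ θ in (-π)..π, f θ * Real.sin (((-((m + 1 : ℕ) : ℤ) : ℤ) : ℝ) * θ) =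
      -∫ θ in (-π)..π, f θ * Real.sin ((((m + 1 : ℕ) : ℤ) : ℝ) * θ) := by
    rw [← intervalIntegral.integral_neg]
    refine intervalIntegral.integral_congr fun x _ => ?_
    simp only [Int.cast_neg, neg_mul, Real.sin_neg, mul_neg]
  rw [e2, e3, mul_pow, inv_pow, Real.sq_sqrt hpi.le, neg_sq]
  field_simp
  ring

end Pool.Agent.Y421.QE
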